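import Mathlib
import Pool.Agent.H357Z.FDC.Defs
import Pool.Agent.H357Z.FDC.Grig

set_option autoImplicit false

open Pool.Agent.H357Z.FDC

/-- There is a countable group that, for every proper left-invariant metric (and there is one),
has property A and does not have weak finite decomposition complexity. -/
theorem Pool.Agent.Results.MP_19ba80_al.APropertyANotWeakFDC.result :
    ∃ (G : Type) (_ : Group G), Countable G ∧ (∃ d : G → G → ℝ, IsProperInvMetric d) ∧
      ∀ d : G → G → ℝ, IsProperInvMetric d →
        PropertyA d ∧ ¬ DecClass Set.univ d {Set.univ} :=
  propA_main
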